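import Pool.Agent.helper44.NLT.Spec

set_option autoImplicit false

open Complex Metric Set Filter Topology MeasureTheory MPS
open Pool.Agent.helper98.ILF Pool.Agent.helper16.Multibrot

noncomputable section

namespace NLT

/-- CBK: the image is backward invariant. -/
theorem CBK (hCNV : CNV_stmt) : CBK_stmt := by
  intro n c c' Ψ h w ⟨u, hu, hΨu⟩
  have hn : 2 ≤ n := h.hn
  have hn0 : n ≠ 0 := by omega
  obtain ⟨z, hz⟩ := IsAlgClosed.exists_pow_nat_eq (u - c) (n := n) (by omega)
  have hmem : ∀ y : ℂ, y ^ n + c = u → y ∉ filled n c := by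
    intro y hy hyf
    apply hu
    have h1 : y ∈ (fun z : ℂ => z ^ n + c) ⁻¹' filled n c := by
      rw [preimage_filled hn c]
      exact hyf
    have h2 : y ^ n + c ∈ filled n c := h1
    rwa [hy] at h2
  have hzu : z ^ n + c = u := by rw [hz]; ring
  have hzf : z ∉ filled n c := hmem z hzu
  have hfe : Ψ u = Ψ z ^ n + c' := by
    have := h.feq z hzf
    rwa [hzu] at this
  have hpow : Ψ z ^ n = w ^ n := by
    have : Ψ z ^ n + c' = w ^ n + c' := by rw [← hfe, hΨu]
    exact add_right_cancel this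
  have hΨz : Ψ z ≠ 0 := (hCNV n c c' Ψ h z hzf).1
  have hquot : (w / Ψ z) ^ n = 1 := by
    rw [div_pow, ← hpow, div_self (pow_ne_zero n hΨz)]
  have hprim : IsPrimitiveRoot (om n) n := by
    have := Complex.isPrimitiveRoot_exp n hn0
    exact this
  have : NeZero n := ⟨hn0⟩
  obtain ⟨l, _, hl⟩ := hprim.eq_pow_of_pow_eq_one hquot
  have hom : om n ^ n = 1 := hprim.pow_eq_one
  have hstep : ∀ i : ℕ, (om n ^ i * z) ∉ filled n c ∧ Ψ (om n ^ i * z) = om n ^ i * Ψ z := by
    intro i
    induction i with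
    | zero => exact ⟨by simpa using hzf, by simp⟩
    | succ i ih =>
      have e1 : om n ^ (i + 1) * z = om n * (om n ^ i * z) := by ring
      refine ⟨?_, ?_⟩
      · apply hmem
        rw [mul_pow, ← pow_mul, mul_comm (i + 1) n, pow_mul, hom, one_pow, one_mul, hzu]
      · rw [e1, h.sym _ ih.1, ih.2]
        ring
  refine ⟨om n ^ l * z, (hstep l).1, ?_⟩
  rw [(hstep l).2, hl]
  field_simp

end NLT
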